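import Pool.Agent.R893.GP.Stm2

set_option autoImplicit false
open MvPolynomial
open Pool.Agent.Helper947.Geo (IsVan)
open Pool.Agent.R893.GP (Dist GS Gen)

/-!
# Project GB: an `(a, b)`-geproci set of `ℙ^3`, not planar, `b ≥ 2 a - 1`, lies on `a` skew lines

(MP_d99f44_ag, MP_7fd0c9_ag.)  Definitions and statements.
-/

namespace Pool.Agent.K7.H43.GB

/-- polynomials in `w_1, w_2, w_3` (`Sum.inl`) and `x_1, x_2, x_3` (`Sum.inr`) -/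
abbrev A6 := MvPolynomial (Fin 3 ⊕ Fin 3) ℂ

/-- the derivative with respect to `w_i` -/
noncomputable def pw (i : Fin 3) (Φ : A6) : A6 := pderiv (Sum.inl i) Φ

/-- the derivative with respect to `x_i` -/
noncomputable def px (i : Fin 3) (Φ : A6) : A6 := pderiv (Sum.inr i) Φ

/-- the derivative with respect to `w` in the direction `u` -/
noncomputable def pwu (u : Fin 3 → ℂ) (Φ : A6) : A6 := ∑ i, C (u i) * pw i Φ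

/-- the derivative with respect to `x` in the direction `u` -/
noncomputable def pxu (u : Fin 3 → ℂ) (Φ : A6) : A6 := ∑ i, C (u i) * px i Φ

/-- homogeneous of degree `d` in `w` -/
def WHom (Φ : A6) (d : ℕ) : Prop :=
  IsWeightedHomogeneous (Sum.elim (fun _ => 1) (fun _ => 0) : Fin 3 ⊕ Fin 3 → ℕ) Φ d

/-- the value at `w, x` -/
noncomputable def ev (w x : Fin 3 → ℂ) (Φ : A6) : ℂ := eval (Sum.elim w x) Φ

/-- the specialisation of `x`: a polynomial in `w` -/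
noncomputable def spec (x : Fin 3 → ℂ) : A6 →ₐ[ℂ] MvPolynomial (Fin 3) ℂ :=
  aeval (Sum.elim X fun i => C (x i))

/-- the projection of the point `(y k, c k)` of `ℂ^4` from `(x, 1)` -/
def pr {K : Type} (y : K → Fin 3 → ℂ) (c : K → ℂ) (x : Fin 3 → ℂ) (k : K) : Fin 3 → ℂ :=
  fun i => y k i - c k * x i

/-- for general `x` the points `pr y c x` are distinct and their ideal is generated by two forms of
the degrees `d` and `b` -/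
def Gen3 {K : Type} (y : K → Fin 3 → ℂ) (c : K → ℂ) (d b : ℕ) : Prop :=
  ∃ φ : MvPolynomial (Fin 3) ℂ, φ ≠ 0 ∧ ∀ x, eval x φ ≠ 0 → Dist (pr y c x) ∧
    ∃ F G : MvPolynomial (Fin 3) ℂ, F.IsHomogeneous d ∧ G.IsHomogeneous b ∧
      IsVan (pr y c x) (Ideal.span {F, G})

/-- all minors `px i Ξ * pw j Ξ - px j Ξ * pw i Ξ` are divisible by `Ξ` -/
def Par (Ξ Φ : A6) : Prop := ∀ i j, Ξ ∣ px i Φ * pw j Φ - px j Φ * pw i Φ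

/-! ## facts for fixed `x` -/

/-- UNI: forms of degree less than `b` vanishing at the points are multiples of `F` -/
def S_UNI : Prop := ∀ (K : Type) [Fintype K] (w : K → Fin 3 → ℂ), Dist w →
  ∀ (d b : ℕ) (F G : MvPolynomial (Fin 3) ℂ), d < b → F.IsHomogeneous d → G.IsHomogeneous b →
  IsVan w (Ideal.span {F, G}) →
  F ≠ 0 ∧ ∀ (e : ℕ) (H : MvPolynomial (Fin 3) ℂ), e < b → H.IsHomogeneous e →
    (∀ k, eval (w k) H = 0) → F ∣ H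

/-- MIN: the minors -/
def S_MIN : Prop := ∀ (K : Type) [Fintype K] (w : K → Fin 3 → ℂ), Dist w → ∀ (t : K → ℂ)
  (d b : ℕ) (F G : MvPolynomial (Fin 3) ℂ), 3 ≤ d → 2 * d ≤ b + 1 → F.IsHomogeneous d →
  G.IsHomogeneous b → IsVan w (Ideal.span {F, G}) →
  ∀ E : Fin 3 → MvPolynomial (Fin 3) ℂ, (∀ i, (E i).IsHomogeneous d) →
  (∀ i k, eval (w k) (E i) = t k * eval (w k) (pderiv i F)) →
  ∀ i j, F ∣ E i * pderiv j F - E j * pderiv i F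

/-- SQF: `F` has no multiple factor -/
def S_SQF : Prop := ∀ (K : Type) [Fintype K] (w : K → Fin 3 → ℂ), Dist w →
  ∀ (d b : ℕ) (F G : MvPolynomial (Fin 3) ℂ), d < b → F.IsHomogeneous d → G.IsHomogeneous b →
  IsVan w (Ideal.span {F, G}) → ∀ f g : MvPolynomial (Fin 3) ℂ, F = f * f * g → f.totalDegree = 0

/-- GRAD: `F` is smooth at the points -/
def S_GRAD : Prop := ∀ (K : Type) [Fintype K] (w : K → Fin 3 → ℂ), Dist w →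
  ∀ (F G : MvPolynomial (Fin 3) ℂ), IsVan w (Ideal.span {F, G}) →
  ∀ k, ∃ i, eval (w k) (pderiv i F) ≠ 0

/-! ## the family -/

/-- FAM: a polynomial family of forms -/
def S_FAM : Prop := ∀ (K : Type) [Fintype K] (y : K → Fin 3 → ℂ) (c : K → ℂ) (d : ℕ)
  (φ : MvPolynomial (Fin 3) ℂ), φ ≠ 0 →
  (∀ x, eval x φ ≠ 0 → ∃ F : MvPolynomial (Fin 3) ℂ, F ≠ 0 ∧ F.IsHomogeneous d ∧
    ∀ k, eval (pr y c x k) F = 0) →
  ∃ Φ : A6, Φ ≠ 0 ∧ WHom Φ d ∧ ∀ k x, ev (pr y c x k) x Φ = 0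

/-- SPEC: specialisations -/
def S_SPEC : Prop := (∀ Φ : A6, Φ ≠ 0 → ∃ φ : MvPolynomial (Fin 3) ℂ, φ ≠ 0 ∧
    ∀ x, eval x φ ≠ 0 → spec x Φ ≠ 0) ∧
  (∀ (Φ : A6) (d : ℕ) (x : Fin 3 → ℂ), WHom Φ d → (spec x Φ).IsHomogeneous d) ∧
  (∀ (Φ : A6) (w x : Fin 3 → ℂ), eval w (spec x Φ) = ev w x Φ) ∧
  (∀ (Φ : A6) (x : Fin 3 → ℂ) (i : Fin 3), pderiv i (spec x Φ) = spec x (pw i Φ)) ∧
  (∀ (Φ : A6) (d : ℕ) (i : Fin 3), WHom Φ d → WHom (px i Φ) d)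

/-- CHAIN: the chain rule -/
def S_CHAIN : Prop := ∀ (K : Type) (y : K → Fin 3 → ℂ) (c : K → ℂ) (Φ : A6),
  (∀ k x, ev (pr y c x k) x Φ = 0) →
  ∀ k x i, ev (pr y c x k) x (px i Φ) = c k * ev (pr y c x k) x (pw i Φ)

/-- PARPHI: the minors of `Φ` are divisible by the irreducible factors -/
def S_PARPHI : Prop := ∀ (K : Type) [Fintype K] (y : K → Fin 3 → ℂ) (c : K → ℂ) (d b : ℕ),
  3 ≤ d → 2 * d ≤ b + 1 → Gen3 y c d b → ∀ Φ : A6, Φ ≠ 0 → WHom Φ d →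
  (∀ k x, ev (pr y c x k) x Φ = 0) → ∀ (Ξ : A6) (e : ℕ), Irreducible Ξ → Ξ ∣ Φ → WHom Ξ e → 1 ≤ e →
  Par Ξ Φ

/-- SQFG: no multiple factor of positive degree in `w` -/
def S_SQFG : Prop := ∀ (K : Type) [Fintype K] (y : K → Fin 3 → ℂ) (c : K → ℂ) (d b : ℕ),
  3 ≤ d → 2 * d ≤ b + 1 → Gen3 y c d b → ∀ Φ : A6, Φ ≠ 0 → WHom Φ d →
  (∀ k x, ev (pr y c x k) x Φ = 0) → ∀ (Ξ : A6) (e : ℕ), Irreducible Ξ → WHom Ξ e → 1 ≤ e →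
  ¬ Ξ * Ξ ∣ Φ

/-- PARFAC: from the minors of `Φ` to the minors of a factor -/
def S_PARFAC : Prop := ∀ (Ξ Φ : A6), Irreducible Ξ → Ξ ∣ Φ → ¬ Ξ * Ξ ∣ Φ → Par Ξ Φ → Par Ξ Ξ

/-- SMOOTH: smoothness at the points with `c k = 0` -/
def S_SMOOTH : Prop := ∀ (K : Type) [Fintype K] (y : K → Fin 3 → ℂ) (c : K → ℂ) (d b : ℕ),
  3 ≤ d → 2 * d ≤ b + 1 → Gen3 y c d b → ∀ Φ : A6, Φ ≠ 0 → WHom Φ d →
  (∀ k x, ev (pr y c x k) x Φ = 0) → ∀ Ξ : A6, Ξ ∣ Φ →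
  ∀ k, c k = 0 → (∀ x, ev (y k) x Ξ = 0) → ∃ x i, ev (y k) x (pw i Ξ) ≠ 0

/-- FACT: an irreducible factor with many zeros -/
def S_FACT : Prop := ∀ (K : Type) [Fintype K] (y : K → Fin 3 → ℂ) (Φ : A6) (d : ℕ), Φ ≠ 0 →
  WHom Φ d → (∀ k x, ev (y k) x Φ = 0) → d < Fintype.card K →
  ∃ (Ξ : A6) (e : ℕ), 1 ≤ e ∧ Irreducible Ξ ∧ Ξ ∣ Φ ∧ WHom Ξ e ∧
    e < Nat.card {k // ∀ x, ev (y k) x Ξ = 0}

/-! ## the curve does not move -/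

/-- DER: derivations with prescribed values -/
def S_DER : Prop := ∀ (L : Type) [Field L] [Algebra ℂ L] (y : Fin 3 ⊕ Unit → L),
  AlgebraicIndependent ℂ y → ∀ q : Fin 3 ⊕ Unit → L, q ≠ 0 →
  ∃ D : Derivation ℂ L L, ∑ i, q i * D (y i) ≠ 0

/-- the vector `(p w + E x, E)` -/
noncomputable def gam (p E : A6) : Fin 3 ⊕ Unit → A6 :=
  Sum.elim (fun i => p * X (Sum.inl i) + E * X (Sum.inr i)) (fun _ => E)

/-- SARD: the lifted points `(w + (E / p) x, E / p)` are algebraically dependent -/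
def S_SARD : Prop := ∀ (Ξ : A6) (e : ℕ) (u : Fin 3 → ℂ), Irreducible Ξ → WHom Ξ e → 1 ≤ e →
  Par Ξ Ξ → ¬ Ξ ∣ pwu u Ξ →
  ∃ (N : ℕ) (Ψ : MvPolynomial (Fin 3 ⊕ Unit) ℂ), Ψ ≠ 0 ∧ Ψ.IsHomogeneous N ∧
    Ξ ∣ aeval (gam (pwu u Ξ) (pxu u Ξ)) Ψ

/-- INTEG: the relation is an integral equation for `E / p` -/
def S_INTEG : Prop := ∀ (N : ℕ) (Ψ : MvPolynomial (Fin 3 ⊕ Unit) ℂ), Ψ ≠ 0 → Ψ.IsHomogeneous N →
  ∃ (h : MvPolynomial (Fin 3) ℂ) (a : ℕ → A6), h ≠ 0 ∧ (∀ i, WHom (a i) i) ∧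
    ∀ E p : A6, aeval (gam p E) Ψ = rename Sum.inr h * E ^ N +
      ∑ i ∈ Finset.range N, a (i + 1) * (E ^ (N - 1 - i) * p ^ (i + 1))

/-- HILB: dimension of the forms modulo `F` -/
def S_HILB : Prop := ∀ (k : Type) [Field k] (F : MvPolynomial (Fin 3) k) (e : ℕ), F ≠ 0 →
  F.IsHomogeneous e → ∃ c : ℕ, ∀ t, Module.finrank k
    ((homogeneousSubmodule (Fin 3) k t).map (Ideal.Quotient.mkₐ k (Ideal.span {F})).toLinearMap)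
      ≤ e * t + c

/-- COUNT: an integral element of degree one has at most `e` zeros -/
def S_COUNT : Prop := ∀ (k : Type) [Field k] [Infinite k] (F E p : MvPolynomial (Fin 3) k)
  (e r N : ℕ) (a : ℕ → MvPolynomial (Fin 3) k), Prime F → F.IsHomogeneous e →
  p.IsHomogeneous r → E.IsHomogeneous (r + 1) → ¬ F ∣ p → ¬ F ∣ E → (∀ i, (a i).IsHomogeneous i) →
  F ∣ E ^ N + ∑ i ∈ Finset.range N, a (i + 1) * (E ^ (N - 1 - i) * p ^ (i + 1)) →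
  ∀ (W : Type) [Fintype W] (y : W → Fin 3 → k), (∀ u, y u ≠ 0) →
  (∀ u v, u ≠ v → LinearIndependent k ![y u, y v]) →
  (∀ u, eval (y u) F = 0 ∧ eval (y u) E = 0 ∧ eval (y u) p ≠ 0) → Fintype.card W ≤ e

/-- GEN: the generic fibre. `ι` embeds `ℂ[w, x]` into the forms over `k = ℂ(x)` -/
def S_GEN : Prop := ∃ (k : Type) (_ : Field k) (_ : Algebra (MvPolynomial (Fin 3) ℂ) k)
  (ι : A6 →+* MvPolynomial (Fin 3) k), Infinite k ∧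
  Function.Injective (algebraMap (MvPolynomial (Fin 3) ℂ) k) ∧ Function.Injective ι ∧
  (∀ h : MvPolynomial (Fin 3) ℂ, ι (rename Sum.inr h) = C (algebraMap (MvPolynomial (Fin 3) ℂ) k h)) ∧
  (∀ i, ι (X (Sum.inl i)) = X i) ∧
  (∀ (Φ : A6) (d : ℕ), WHom Φ d → (ι Φ).IsHomogeneous d) ∧
  (∀ (Φ : A6) (y : Fin 3 → ℂ), eval (fun i => algebraMap (MvPolynomial (Fin 3) ℂ) k (C (y i))) (ι Φ) = 0 ↔
    ∀ x, ev y x Φ = 0) ∧
  (∀ (Ξ : A6) (e : ℕ), Irreducible Ξ → WHom Ξ e → 1 ≤ e → Prime (ι Ξ) ∧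
    ∀ Φ : A6, ι Ξ ∣ ι Φ → Ξ ∣ Φ)

/-- ZERO: the derivatives in `x` are divisible by `Ξ` -/
def S_ZERO : Prop := ∀ (Ξ : A6) (e : ℕ), Irreducible Ξ → WHom Ξ e → 1 ≤ e → Par Ξ Ξ →
  ∀ (K : Type) [Fintype K] (y : K → Fin 3 → ℂ), Dist y → (∀ k x, ev (y k) x Ξ = 0) →
  (∀ k, ∃ x i, ev (y k) x (pw i Ξ) ≠ 0) → e < Fintype.card K → ∀ i, Ξ ∣ px i Ξ

/-- NOX: then `Ξ` does not depend on `x` -/
def S_NOX : Prop := ∀ (Ξ : A6) (e : ℕ), Irreducible Ξ → WHom Ξ e → (∀ i, Ξ ∣ px i Ξ) →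
  ∃ f : MvPolynomial (Fin 3) ℂ, f.IsHomogeneous e ∧ Irreducible f ∧ Ξ = rename Sum.inl f

/-- CURVE: a common component of the curves -/
def S_CURVE : Prop := ∀ (K : Type) [Fintype K] (y : K → Fin 3 → ℂ) (c : K → ℂ) (d b : ℕ),
  3 ≤ d → 2 * d ≤ b + 1 → Gen3 y c d b → d < Nat.card {k // c k = 0} →
  ∃ (e : ℕ) (f : MvPolynomial (Fin 3) ℂ), 1 ≤ e ∧ f.IsHomogeneous e ∧ Irreducible f ∧
    ∃ φ : MvPolynomial (Fin 3) ℂ, φ ≠ 0 ∧ ∀ x, eval x φ ≠ 0 →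
      ∀ F : MvPolynomial (Fin 3) ℂ, F.IsHomogeneous d → (∀ k, eval (pr y c x k) F = 0) → f ∣ F

/-! ## the geometric part -/

/-- PIECE3: a nondegenerate geproci set of type `(d, b)`, `b ≥ 2 d - 1`, has a planar part -/
def S_PIECE3 : Prop := ∀ (K : Type) [Fintype K] [DecidableEq K] (z : K → Fin 4 → ℂ), Dist z →
  ∀ (d b : ℕ) (T : Finset K), 1 ≤ d → 2 * d ≤ b + 1 → 5 ≤ b → GS z b T d →
  (∀ ξ : (Fin 4 → ℂ) →ₗ[ℂ] ℂ, (∀ k ∈ T, ξ (z k) = 0) → ξ = 0) →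
  ∃ (S : Finset K) (e : ℕ) (ξ : (Fin 4 → ℂ) →ₗ[ℂ] ℂ), S ⊆ T ∧ 1 ≤ e ∧ GS z b S e ∧ ξ ≠ 0 ∧
    ∀ k ∈ S, ξ (z k) = 0

/-- MAIN3 -/
def S_MAIN3 : Prop := ∀ (K : Type) [Fintype K] (z : K → Fin 4 → ℂ), Dist z →
  ∀ (a b : ℕ), 3 ≤ a → 2 * a ≤ b + 1 → Gen z a b →
  (∀ ξ : (Fin 4 → ℂ) →ₗ[ℂ] ℂ, (∀ k, ξ (z k) = 0) → ξ = 0) →
  ∃ L : Fin a → Submodule ℂ (Fin 4 → ℂ), (∀ i, Module.finrank ℂ (L i) = 2) ∧
    (∀ i j, i ≠ j → L i ⊓ L j = ⊥) ∧ (∀ k, ∃ i, z k ∈ L i) ∧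
    ∀ i, Nat.card {k // z k ∈ L i} = b

end Pool.Agent.K7.H43.GB
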